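import Pool.Agent.Q173.RF.Main

/-!
The root of the continuum `|T_C|` is topologically distinguished: it is the only point at which
the continuum is connected im kleinen, so every homeomorphism fixes it.
-/

namespace Pool.Agent.Results.MP_274e27_gt.RootFixed

open Q173RF

/-- For every Fraisse sequence `D` of finite rooted trees with simple*-confluent epimorphisms: the
edge relation on the limit is an equivalence relation, every homeomorphism of the quotient space
`|T_C|` fixes the image `r` of the root, and `r` is the only point at which `|T_C|` is connected im
kleinen. -/
theorem result (D : FraisseSeq) :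
    Equivalence D.E ∧ (∀ h : D.Space ≃ₜ D.Space, h D.r = D.r) ∧
    ∀ p : D.Space, IsCIK p ↔ p = D.r :=
  ⟨FraisseSeq.E_equivalence D, homeo_fixes_root D, isCIK_iff D⟩

end Pool.Agent.Results.MP_274e27_gt.RootFixed
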